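import Mathlib

/-!
# The theorem of Balog, Szemerédi and Gowers

`Pool.Agent.H34.BSG.bsg`: a finite subset `A` of an abelian group with additive energy at least
`|A| ^ 3 / K` has a subset `A'` with `|A| ≤ 8 K |A'|` and `|A' - A'| ≤ 2 ^ 22 K ^ 10 |A'|`.
-/

set_option autoImplicit false

open Finset
open scoped Pointwise Combinatorics.Additive

namespace Pool.Agent.H34.BSG

section Graph

variable {V : Type*} [DecidableEq V]

/-- the number of common neighbours -/
def cd (A : Finset V) (R : V → V → Prop) [∀ a b, Decidable (R a b)] (a a' : V) : ℕ :=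
  (A.filter fun b => R a b ∧ R a' b).card

omit [DecidableEq V] in
theorem cd_comm (A : Finset V) (R : V → V → Prop) [∀ a b, Decidable (R a b)] (a a' : V) :
    cd A R a a' = cd A R a' a := by
  unfold cd
  congr 1
  exact Finset.filter_congr fun b _ => and_comm

/-- The lemma on graphs: many paths of length four. -/
theorem graph (A : Finset V) (R : V → V → Prop) [∀ a b, Decidable (R a b)] (α : ℝ)
    (hα : 0 < α) (hA : A.Nonempty)
    (h : α * (A.card : ℝ) ^ 2 ≤ (((A ×ˢ A).filter fun p => R p.1 p.2).card : ℝ)) :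
    ∃ A' ⊆ A, α / 4 * A.card ≤ (A'.card : ℝ) ∧ ∀ a ∈ A', ∀ a' ∈ A',
      α / 4 * A.card * (α ^ 2 / 16 * A.card) ^ 2 ≤
        (((A ×ˢ A ×ˢ A).filter fun q => (R a q.2.1 ∧ R q.1 q.2.1) ∧ (R q.1 q.2.2 ∧ R a' q.2.2)).card
          : ℝ) := by
  classical
  set n : ℝ := (A.card : ℝ) with hn
  have hn0 : 0 < n := by
    rw [hn]
    exact_mod_cast hA.card_pos
  set N : V → Finset V := fun b => A.filter fun a => R a b with hN
  set bad : V → V → Prop := fun a a' => (cd A R a a' : ℝ) < α ^ 2 / 16 * n with hbad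
  set bd : V → ℝ := fun b => ((((N b) ×ˢ (N b)).filter fun p => bad p.1 p.2).card : ℝ) with hbd
  -- the number of edges
  have h1 : (((A ×ˢ A).filter fun p => R p.1 p.2).card : ℝ) = ∑ b ∈ A, ((N b).card : ℝ) := by
    have e : ((A ×ˢ A).filter fun p => R p.1 p.2).card = ∑ b ∈ A, (N b).card := by
      rw [Finset.card_filter, Finset.sum_product_right]
      refine Finset.sum_congr rfl fun b _ => ?_
      rw [hN, Finset.card_filter]
    rw [e]
    push_cast
    rfl
  have h2 : α ^ 2 * n ^ 3 ≤ ∑ b ∈ A, ((N b).card : ℝ) ^ 2 := by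
    have h3 : (∑ b ∈ A, ((N b).card : ℝ)) ^ 2 ≤ n * ∑ b ∈ A, ((N b).card : ℝ) ^ 2 :=
      sq_sum_le_card_mul_sum_sq
    have h4 : (α * n ^ 2) ^ 2 ≤ (∑ b ∈ A, ((N b).card : ℝ)) ^ 2 := by
      rw [h1] at h
      exact pow_le_pow_left₀ (by positivity) h 2
    have h5 : n * (α ^ 2 * n ^ 3) ≤ n * ∑ b ∈ A, ((N b).card : ℝ) ^ 2 := by
      calc n * (α ^ 2 * n ^ 3) = (α * n ^ 2) ^ 2 := by ring
        _ ≤ _ := h4.trans h3
    exact le_of_mul_le_mul_left h5 hn0
  -- the number of bad pairs
  have h3 : ∑ b ∈ A, bd b ≤ α ^ 2 / 16 * n ^ 3 := by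
    have e : ∑ b ∈ A, (((N b) ×ˢ (N b)).filter fun p => bad p.1 p.2).card =
        ∑ p ∈ (A ×ˢ A).filter (fun p => bad p.1 p.2), cd A R p.1 p.2 := by
      have e1 : ∀ b ∈ A, (((N b) ×ˢ (N b)).filter fun p => bad p.1 p.2).card =
          ∑ p ∈ (A ×ˢ A).filter (fun p => bad p.1 p.2), if R p.1 b ∧ R p.2 b then 1 else 0 := by
        intro b _
        rw [← Finset.card_filter, Finset.filter_filter]
        congr 1
        ext p
        simp only [hN, Finset.mem_filter, Finset.mem_product]
        tauto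
      rw [Finset.sum_congr rfl e1, Finset.sum_comm]
      refine Finset.sum_congr rfl fun p _ => ?_
      unfold cd
      rw [Finset.card_filter]
    have e2 : ∑ b ∈ A, bd b =
        ∑ p ∈ (A ×ˢ A).filter (fun p => bad p.1 p.2), (cd A R p.1 p.2 : ℝ) := by
      simp only [hbd]
      exact_mod_cast e
    rw [e2]
    calc ∑ p ∈ (A ×ˢ A).filter (fun p => bad p.1 p.2), (cd A R p.1 p.2 : ℝ)
        ≤ ∑ _p ∈ (A ×ˢ A).filter (fun p => bad p.1 p.2), α ^ 2 / 16 * n :=
          Finset.sum_le_sum fun p hp => (Finset.mem_filter.1 hp).2.le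
      _ = (((A ×ˢ A).filter (fun p => bad p.1 p.2)).card : ℝ) * (α ^ 2 / 16 * n) := by
          rw [Finset.sum_const, nsmul_eq_mul]
      _ ≤ (n * n) * (α ^ 2 / 16 * n) := by
          refine mul_le_mul_of_nonneg_right ?_ (by positivity)
          have h4 : ((A ×ˢ A).filter (fun p => bad p.1 p.2)).card ≤ A.card * A.card := by
            rw [← Finset.card_product]
            exact Finset.card_filter_le _ _
          have h5 : (((A ×ˢ A).filter (fun p => bad p.1 p.2)).card : ℝ) ≤
              (A.card : ℝ) * (A.card : ℝ) := by exact_mod_cast h4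
          exact h5
      _ = _ := by ring
  -- the choice of `b`
  obtain ⟨b, hbA, hb⟩ : ∃ b ∈ A, α ^ 2 / 2 * n ^ 2 ≤ ((N b).card : ℝ) ^ 2 - 8 * bd b := by
    by_contra hcon
    push Not at hcon
    have h4 : ∑ b ∈ A, (((N b).card : ℝ) ^ 2 - 8 * bd b) < ∑ _b ∈ A, α ^ 2 / 2 * n ^ 2 :=
      Finset.sum_lt_sum_of_nonempty hA hcon
    rw [Finset.sum_sub_distrib, ← Finset.mul_sum, Finset.sum_const, nsmul_eq_mul] at h4
    have h5 : (A.card : ℝ) * (α ^ 2 / 2 * n ^ 2) = α ^ 2 / 2 * n ^ 3 := by
      rw [← hn]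
      ring
    rw [h5] at h4
    linarith
  have hbd0 : 0 ≤ bd b := by
    rw [hbd]
    exact Nat.cast_nonneg _
  set m : ℝ := ((N b).card : ℝ) with hm
  have hm0 : 0 ≤ m := Nat.cast_nonneg _
  have hm1 : α / 2 * n ≤ m := by
    have h4 : (α / 2 * n) ^ 2 ≤ m ^ 2 := by
      have : (α / 2 * n) ^ 2 = α ^ 2 / 4 * n ^ 2 := by ring
      have h5 : 0 ≤ α ^ 2 * n ^ 2 := by positivity
      linarith
    exact le_of_sq_le_sq h4 hm0
  have hmpos : 0 < m := lt_of_lt_of_le (by positivity) hm1
  have hbd1 : bd b ≤ m ^ 2 / 8 := by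
    have : 0 ≤ α ^ 2 / 2 * n ^ 2 := by positivity
    linarith
  -- the vertices with few bad partners
  set W : Finset V := (N b).filter
    (fun a => (((N b).filter fun a' => bad a a').card : ℝ) ≤ m / 4) with hW
  have hWsub : W ⊆ N b := Finset.filter_subset _ _
  have hWcard : m / 2 ≤ (W.card : ℝ) := by
    have h4 : bd b = ∑ a ∈ N b, (((N b).filter fun a' => bad a a').card : ℝ) := by
      have e : (((N b) ×ˢ (N b)).filter fun p => bad p.1 p.2).card =
          ∑ a ∈ N b, ((N b).filter fun a' => bad a a').card := by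
        rw [Finset.card_filter, Finset.sum_product]
        refine Finset.sum_congr rfl fun a _ => ?_
        rw [Finset.card_filter]
      simp only [hbd]
      exact_mod_cast e
    have h5 : (((N b).filter
        (fun a => ¬ (((N b).filter fun a' => bad a a').card : ℝ) ≤ m / 4)).card : ℝ) * (m / 4) ≤
        bd b := by
      rw [h4]
      calc (((N b).filter
        (fun a => ¬ (((N b).filter fun a' => bad a a').card : ℝ) ≤ m / 4)).card : ℝ) * (m / 4)
          = ∑ _a ∈ (N b).filter
            (fun a => ¬ (((N b).filter fun a' => bad a a').card : ℝ) ≤ m / 4), m / 4 := by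
            rw [Finset.sum_const, nsmul_eq_mul]
        _ ≤ ∑ a ∈ (N b).filter
            (fun a => ¬ (((N b).filter fun a' => bad a a').card : ℝ) ≤ m / 4),
            (((N b).filter fun a' => bad a a').card : ℝ) :=
            Finset.sum_le_sum fun a ha => (not_le.1 (Finset.mem_filter.1 ha).2).le
        _ ≤ _ := Finset.sum_le_sum_of_subset_of_nonneg (Finset.filter_subset _ _)
            fun a _ _ => Nat.cast_nonneg _
    have h6 : (((N b).filter
        (fun a => ¬ (((N b).filter fun a' => bad a a').card : ℝ) ≤ m / 4)).card : ℝ) ≤ m / 2 := by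
      have h7 : (((N b).filter
        (fun a => ¬ (((N b).filter fun a' => bad a a').card : ℝ) ≤ m / 4)).card : ℝ) * (m / 4) ≤
          m / 2 * (m / 4) := by
        refine (h5.trans hbd1).trans (le_of_eq ?_)
        ring
      exact le_of_mul_le_mul_right h7 (by positivity)
    have h7 := Finset.card_filter_add_card_filter_not (s := N b)
      (fun a => (((N b).filter fun a' => bad a a').card : ℝ) ≤ m / 4)
    have h8 : (W.card : ℝ) + (((N b).filter
        (fun a => ¬ (((N b).filter fun a' => bad a a').card : ℝ) ≤ m / 4)).card : ℝ) = m := by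
      rw [hm, hW]
      exact_mod_cast h7
    linarith
  refine ⟨W, hWsub.trans (Finset.filter_subset _ _), ?_, ?_⟩
  · linarith
  · intro a ha a' ha'
    have hba : (((N b).filter fun c => bad a c).card : ℝ) ≤ m / 4 := (Finset.mem_filter.1 ha).2
    have hba' : (((N b).filter fun c => bad a' c).card : ℝ) ≤ m / 4 :=
      (Finset.mem_filter.1 ha').2
    set M : Finset V := (N b).filter (fun c => ¬ bad a c ∧ ¬ bad a' c) with hM
    have hMcard : m / 2 ≤ (M.card : ℝ) := by
      have h4 : N b ⊆ M ∪ ((N b).filter (fun c => bad a c) ∪ (N b).filter (fun c => bad a' c)) := by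
        intro c hc
        simp only [hM, Finset.mem_union, Finset.mem_filter]
        tauto
      have h5 : (N b).card ≤ M.card + (((N b).filter (fun c => bad a c)).card +
          ((N b).filter (fun c => bad a' c)).card) :=
        (Finset.card_le_card h4).trans ((Finset.card_union_le _ _).trans
          (Nat.add_le_add_left (Finset.card_union_le _ _) _))
      have h6 : m ≤ (M.card : ℝ) + ((((N b).filter (fun c => bad a c)).card : ℝ) +
          (((N b).filter (fun c => bad a' c)).card : ℝ)) := by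
        rw [hm]
        exact_mod_cast h5
      linarith
    have hMA : M ⊆ A := (Finset.filter_subset _ _).trans (Finset.filter_subset _ _)
    have h5 : ((A ×ˢ A ×ˢ A).filter fun q =>
        (R a q.2.1 ∧ R q.1 q.2.1) ∧ (R q.1 q.2.2 ∧ R a' q.2.2)).card =
        ∑ c ∈ A, cd A R a c * cd A R a' c := by
      rw [Finset.card_filter, Finset.sum_product]
      refine Finset.sum_congr rfl fun c _ => ?_
      rw [← Finset.card_filter]
      unfold cd
      rw [← Finset.card_product]
      congr 1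
      ext p
      simp only [Finset.mem_filter, Finset.mem_product]
      tauto
    rw [h5]
    push_cast
    calc α / 4 * n * (α ^ 2 / 16 * n) ^ 2 ≤ (M.card : ℝ) * (α ^ 2 / 16 * n) ^ 2 := by
          refine mul_le_mul_of_nonneg_right ?_ (by positivity)
          linarith
      _ = ∑ _c ∈ M, (α ^ 2 / 16 * n) ^ 2 := by rw [Finset.sum_const, nsmul_eq_mul]
      _ ≤ ∑ c ∈ M, (cd A R a c : ℝ) * (cd A R a' c : ℝ) := by
          refine Finset.sum_le_sum fun c hc => ?_
          obtain ⟨h6, h7⟩ := (Finset.mem_filter.1 hc).2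
          have h8 : α ^ 2 / 16 * n ≤ (cd A R a c : ℝ) := not_lt.1 h6
          have h9 : α ^ 2 / 16 * n ≤ (cd A R a' c : ℝ) := not_lt.1 h7
          rw [sq]
          exact mul_le_mul h8 h9 (by positivity) (Nat.cast_nonneg _)
      _ ≤ _ := Finset.sum_le_sum_of_subset_of_nonneg hMA fun c _ _ => by positivity

end Graph

section Group

variable {G : Type*} [AddCommGroup G] [DecidableEq G]

/-- the number of representations as a sum -/
def rp (A : Finset G) (x : G) : ℕ := ((A ×ˢ A).filter fun p => p.1 + p.2 = x).card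

/-- the popular sums -/
noncomputable def pop (A : Finset G) (δ : ℝ) : Finset G :=
  open scoped Classical in (A + A).filter fun x => δ / 2 * A.card ≤ (rp A x : ℝ)

theorem sum_rp (A : Finset G) : ∑ x ∈ A + A, rp A x = A.card * A.card := by
  unfold rp
  rw [← Finset.card_product]
  refine (Finset.card_eq_sum_card_fiberwise (f := fun p : G × G => p.1 + p.2) ?_).symm
  intro p hp
  rw [Finset.mem_coe, Finset.mem_product] at hp
  exact Finset.mem_coe.2 (Finset.add_mem_add hp.1 hp.2)

theorem rp_le (A : Finset G) (x : G) : rp A x ≤ A.card := by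
  unfold rp
  refine Finset.card_le_card_of_injOn Prod.fst ?_ ?_
  · intro p hp
    exact (Finset.mem_product.1 (Finset.mem_filter.1 (Finset.mem_coe.1 hp)).1).1
  · intro p hp p' hp' h
    have h1 := (Finset.mem_filter.1 (Finset.mem_coe.1 hp)).2
    have h2 := (Finset.mem_filter.1 (Finset.mem_coe.1 hp')).2
    refine Prod.ext h ?_
    rw [← h2] at h1
    rw [h] at h1
    exact add_left_cancel h1

theorem card_pop (A : Finset G) (δ : ℝ) (hδ : 0 < δ) (hA : A.Nonempty) :
    ((pop A δ).card : ℝ) ≤ 2 / δ * A.card := by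
  have hn : (0 : ℝ) < A.card := by exact_mod_cast hA.card_pos
  have h1 : ((pop A δ).card : ℝ) * (δ / 2 * A.card) ≤ (A.card : ℝ) * A.card := by
    calc ((pop A δ).card : ℝ) * (δ / 2 * A.card) = ∑ _x ∈ pop A δ, δ / 2 * (A.card : ℝ) := by
          rw [Finset.sum_const, nsmul_eq_mul]
      _ ≤ ∑ x ∈ pop A δ, (rp A x : ℝ) := Finset.sum_le_sum fun x hx => by
          unfold pop at hx
          exact (Finset.mem_filter.1 hx).2
      _ ≤ ∑ x ∈ A + A, (rp A x : ℝ) := by
          refine Finset.sum_le_sum_of_subset_of_nonneg ?_ fun x _ _ => Nat.cast_nonneg _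
          unfold pop
          exact Finset.filter_subset _ _
      _ = (A.card : ℝ) * A.card := by exact_mod_cast sum_rp A
  have h2 : ((pop A δ).card : ℝ) * (δ / 2 * A.card) ≤ 2 / δ * A.card * (δ / 2 * A.card) := by
    refine h1.trans (le_of_eq ?_)
    field_simp
  exact le_of_mul_le_mul_right h2 (by positivity)

theorem edges (A : Finset G) (δ : ℝ) (hδ : 0 < δ) (hA : A.Nonempty)
    (hE : δ * (A.card : ℝ) ^ 3 ≤ ((Finset.addEnergy A A : ℕ) : ℝ)) :
    δ / 2 * (A.card : ℝ) ^ 2 ≤
      (((A ×ˢ A).filter fun p => p.1 + p.2 ∈ pop A δ).card : ℝ) := by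
  classical
  have hn : (0 : ℝ) < A.card := by exact_mod_cast hA.card_pos
  have h1 : ((A ×ˢ A).filter fun p => p.1 + p.2 ∈ pop A δ).card = ∑ x ∈ pop A δ, rp A x := by
    have h2 := Finset.card_eq_sum_card_fiberwise (f := fun p : G × G => p.1 + p.2)
      (s := (A ×ˢ A).filter fun p => p.1 + p.2 ∈ pop A δ) (t := pop A δ)
      (fun p hp => Finset.mem_coe.2 (Finset.mem_filter.1 (Finset.mem_coe.1 hp)).2)
    rw [h2]
    refine Finset.sum_congr rfl fun x hx => ?_
    unfold rp
    congr 1
    ext p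
    simp only [Finset.mem_filter]
    constructor
    · rintro ⟨⟨h3, -⟩, h4⟩
      exact ⟨h3, h4⟩
    · rintro ⟨h3, rfl⟩
      exact ⟨⟨h3, hx⟩, rfl⟩
  have hen : ((Finset.addEnergy A A : ℕ) : ℝ) = ∑ x ∈ A + A, (rp A x : ℝ) ^ 2 := by
    rw [Finset.addEnergy_eq_sum_sq']
    push_cast
    rfl
  have hsplit : ∑ x ∈ A + A, (rp A x : ℝ) ^ 2 ≤
      ∑ x ∈ pop A δ, (rp A x : ℝ) ^ 2 + δ / 2 * (A.card : ℝ) ^ 3 := by
    have h2 : ∑ x ∈ A + A, (rp A x : ℝ) ^ 2 = ∑ x ∈ pop A δ, (rp A x : ℝ) ^ 2 +
        ∑ x ∈ (A + A).filter (fun x => ¬ δ / 2 * A.card ≤ (rp A x : ℝ)), (rp A x : ℝ) ^ 2 := by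
      unfold pop
      rw [Finset.sum_filter_add_sum_filter_not]
    rw [h2]
    refine add_le_add le_rfl ?_
    calc ∑ x ∈ (A + A).filter (fun x => ¬ δ / 2 * A.card ≤ (rp A x : ℝ)), (rp A x : ℝ) ^ 2
        ≤ ∑ x ∈ (A + A).filter (fun x => ¬ δ / 2 * A.card ≤ (rp A x : ℝ)),
            δ / 2 * A.card * (rp A x : ℝ) := by
          refine Finset.sum_le_sum fun x hx => ?_
          rw [sq]
          exact mul_le_mul_of_nonneg_right (not_le.1 (Finset.mem_filter.1 hx).2).le
            (Nat.cast_nonneg _)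
      _ ≤ ∑ x ∈ A + A, δ / 2 * A.card * (rp A x : ℝ) :=
          Finset.sum_le_sum_of_subset_of_nonneg (Finset.filter_subset _ _)
            fun x _ _ => by positivity
      _ = δ / 2 * A.card * ((A.card : ℝ) * A.card) := by
          rw [← Finset.mul_sum]
          congr 1
          exact_mod_cast sum_rp A
      _ = _ := by ring
  have hsq : ∑ x ∈ pop A δ, (rp A x : ℝ) ^ 2 ≤
      (A.card : ℝ) * ∑ x ∈ pop A δ, (rp A x : ℝ) := by
    rw [Finset.mul_sum]
    refine Finset.sum_le_sum fun x _ => ?_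
    rw [sq]
    refine mul_le_mul_of_nonneg_right ?_ (Nat.cast_nonneg _)
    exact_mod_cast rp_le A x
  rw [h1]
  push_cast
  have h3 : (A.card : ℝ) * (δ / 2 * (A.card : ℝ) ^ 2) ≤
      (A.card : ℝ) * ∑ x ∈ pop A δ, (rp A x : ℝ) := by
    rw [hen] at hE
    have e : (A.card : ℝ) * (δ / 2 * (A.card : ℝ) ^ 2) = δ * (A.card : ℝ) ^ 3 / 2 := by ring
    rw [e]
    linarith
  exact le_of_mul_le_mul_left h3 hn

/-- **The theorem of Balog, Szemerédi and Gowers.** -/
theorem bsg (A : Finset G) (δ : ℝ) (hδ : 0 < δ) (hA : A.Nonempty)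
    (hE : δ * (A.card : ℝ) ^ 3 ≤ ((Finset.addEnergy A A : ℕ) : ℝ)) :
    ∃ A' ⊆ A, δ / 8 * A.card ≤ (A'.card : ℝ) ∧
      ((A' - A').card : ℝ) ≤ 2 ^ 19 / δ ^ 9 * A.card := by
  classical
  have hn : (0 : ℝ) < A.card := by exact_mod_cast hA.card_pos
  obtain ⟨A', hA', h1, h2⟩ := graph A (fun a b => a + b ∈ pop A δ) (δ / 2) (by positivity) hA
    (edges A δ hδ hA hE)
  refine ⟨A', hA', ?_, ?_⟩
  · refine le_trans (le_of_eq ?_) h1
    ring
  · set P := pop A δ with hP
    set L : ℝ := δ / 2 / 4 * A.card * ((δ / 2) ^ 2 / 16 * A.card) ^ 2 with hL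
    have hL0 : 0 < L := by positivity
    -- the representations of a difference by four popular sums
    have h3 : ∀ d ∈ A' - A', L ≤ (((P ×ˢ P ×ˢ P ×ˢ P).filter
        fun s => s.1 - s.2.1 + (s.2.2.1 - s.2.2.2) = d).card : ℝ) := by
      intro d hd
      obtain ⟨a, ha, a', ha', rfl⟩ := Finset.mem_sub.1 hd
      refine (h2 a ha a' ha').trans ?_
      have h4 : ((A ×ˢ A ×ˢ A).filter fun q =>
          (a + q.2.1 ∈ P ∧ q.1 + q.2.1 ∈ P) ∧ (q.1 + q.2.2 ∈ P ∧ a' + q.2.2 ∈ P)).card ≤
          ((P ×ˢ P ×ˢ P ×ˢ P).filter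
            fun s => s.1 - s.2.1 + (s.2.2.1 - s.2.2.2) = a - a').card := by
        refine Finset.card_le_card_of_injOn
          (fun q => (a + q.2.1, q.1 + q.2.1, q.1 + q.2.2, a' + q.2.2)) ?_ ?_
        · intro q hq
          obtain ⟨-, ⟨h5, h6⟩, h7, h8⟩ := Finset.mem_filter.1 (Finset.mem_coe.1 hq)
          refine Finset.mem_coe.2 (Finset.mem_filter.2 ⟨?_, ?_⟩)
          · simp only [Finset.mem_product]
            exact ⟨h5, h6, h7, h8⟩
          · show a + q.2.1 - (q.1 + q.2.1) + (q.1 + q.2.2 - (a' + q.2.2)) = a - a'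
            abel
        · rintro ⟨c, b1, b2⟩ _ ⟨c', b1', b2'⟩ _ h
          simp only [Prod.mk.injEq] at h
          obtain ⟨h5, h6, h7, h8⟩ := h
          have e1 : b1 = b1' := add_left_cancel h5
          have e2 : b2 = b2' := add_left_cancel h8
          subst e1 e2
          have e3 : c = c' := add_right_cancel h6
          rw [e3]
      exact_mod_cast h4
    have h4 : ((A' - A').card : ℝ) * L ≤ (P.card : ℝ) ^ 4 := by
      calc ((A' - A').card : ℝ) * L = ∑ _d ∈ A' - A', L := by
            rw [Finset.sum_const, nsmul_eq_mul]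
        _ ≤ ∑ d ∈ A' - A', (((P ×ˢ P ×ˢ P ×ˢ P).filter
            fun s => s.1 - s.2.1 + (s.2.2.1 - s.2.2.2) = d).card : ℝ) := Finset.sum_le_sum h3
        _ ≤ ((P ×ˢ P ×ˢ P ×ˢ P).card : ℝ) := by
            have h5 : ∑ d ∈ A' - A', ((P ×ˢ P ×ˢ P ×ˢ P).filter
                fun s => s.1 - s.2.1 + (s.2.2.1 - s.2.2.2) = d).card ≤
                (P ×ˢ P ×ˢ P ×ˢ P).card := by
              have h6 : ∑ d ∈ A' - A', ((P ×ˢ P ×ˢ P ×ˢ P).filter
                  fun s => s.1 - s.2.1 + (s.2.2.1 - s.2.2.2) = d).card =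
                  ((P ×ˢ P ×ˢ P ×ˢ P).filter
                    fun s => s.1 - s.2.1 + (s.2.2.1 - s.2.2.2) ∈ A' - A').card := by
                rw [Finset.card_eq_sum_card_fiberwise
                  (f := fun s : G × G × G × G => s.1 - s.2.1 + (s.2.2.1 - s.2.2.2))
                  (s := (P ×ˢ P ×ˢ P ×ˢ P).filter
                    fun s => s.1 - s.2.1 + (s.2.2.1 - s.2.2.2) ∈ A' - A') (t := A' - A')
                  (fun s hs => Finset.mem_coe.2 (Finset.mem_filter.1 (Finset.mem_coe.1 hs)).2)]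
                refine Finset.sum_congr rfl fun d hd => ?_
                congr 1
                ext s
                simp only [Finset.mem_filter]
                constructor
                · rintro ⟨h7, rfl⟩
                  exact ⟨⟨h7, hd⟩, rfl⟩
                · rintro ⟨⟨h7, -⟩, h8⟩
                  exact ⟨h7, h8⟩
              rw [h6]
              exact Finset.card_filter_le _ _
            exact_mod_cast h5
        _ = (P.card : ℝ) ^ 4 := by
            rw [Finset.card_product, Finset.card_product, Finset.card_product]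
            push_cast
            ring
    have h5 : (P.card : ℝ) ^ 4 ≤ (2 / δ * A.card) ^ 4 :=
      pow_le_pow_left₀ (Nat.cast_nonneg _) (card_pop A δ hδ hA) 4
    have h6 : (2 / δ * (A.card : ℝ)) ^ 4 = 2 ^ 19 / δ ^ 9 * A.card * L := by
      rw [hL]
      field_simp
      ring
    have h7 : ((A' - A').card : ℝ) * L ≤ 2 ^ 19 / δ ^ 9 * A.card * L := by
      rw [← h6]
      exact h4.trans h5
    exact le_of_mul_le_mul_right h7 hL0

end Group

end Pool.Agent.H34.BSG
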