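import Pool.Agent.H85.KP.Iface

/-!
# Gronwall's area theorem (module M4 of MP_6cc408_an)
-/

set_option autoImplicit false

namespace Pool.Agent.H34.KPArea

open MeasureTheory Set Filter Topology

/-- the open annulus -/
def ann (ρ s : ℝ) : Set ℂ := {z | ρ < ‖z‖ ∧ ‖z‖ < s}

theorem isOpen_ann (ρ s : ℝ) : IsOpen (ann ρ s) :=
  (isOpen_lt continuous_const continuous_norm).inter (isOpen_lt continuous_norm continuous_const)

theorem measurableSet_ann (ρ s : ℝ) : MeasurableSet (ann ρ s) := (isOpen_ann ρ s).measurableSet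

theorem ann_subset_ball (ρ s : ℝ) : ann ρ s ⊆ Metric.ball 0 s := fun z hz => by
  simpa using hz.2

theorem volume_ann_lt_top (ρ s : ℝ) : volume (ann ρ s) < ⊤ :=
  (measure_mono (ann_subset_ball ρ s)).trans_lt measure_ball_lt_top

theorem det_smul_one (a : ℂ) : (a • (1 : ℂ →L[ℝ] ℂ)).det = ‖a‖ ^ 2 := by
  have h1 : ((a • (1 : ℂ →L[ℝ] ℂ) : ℂ →L[ℝ] ℂ) : ℂ →ₗ[ℝ] ℂ) = Algebra.lmul ℝ ℂ a := by
    ext z
    simp
  rw [ContinuousLinearMap.det, h1, ← Algebra.norm_apply, Algebra.norm_complex_apply,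
    Complex.normSq_eq_norm_sq]

/-- area of the image of an injective holomorphic function -/
theorem area_image {F F' : ℂ → ℂ} {A : Set ℂ} (hA : MeasurableSet A)
    (hF : ∀ z ∈ A, HasDerivAt F (F' z) z) (hinj : InjOn F A) :
    ∫⁻ z in A, ENNReal.ofReal (‖F' z‖ ^ 2) = volume (F '' A) := by
  have h1 := lintegral_abs_det_fderiv_eq_addHaar_image volume hA
    (f := F) (f' := fun z => (F' z) • (1 : ℂ →L[ℝ] ℂ))
    (fun z hz => ((hF z hz).complexToReal_fderiv).hasFDerivWithinAt) hinj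
  rw [← h1]
  refine lintegral_congr fun z => ?_
  rw [det_smul_one, abs_of_nonneg (by positivity)]

/-- radial integrals over an annulus -/
theorem integral_radial {ρ s : ℝ} (hρ : 0 < ρ) (hρs : ρ < s) (f : ℝ → ℝ) :
    ∫ z in ann ρ s, f ‖z‖ = 2 * Real.pi * ∫ y in Ioo ρ s, y * f y := by
  have h1 := integral_fun_norm_addHaar (volume : Measure ℂ) ((Ioo ρ s).indicator f)
  have h2 : (fun z : ℂ => (Ioo ρ s).indicator f ‖z‖) = (ann ρ s).indicator (fun z => f ‖z‖) := by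
    ext z
    by_cases hz : z ∈ ann ρ s
    · rw [indicator_of_mem hz, indicator_of_mem (show ‖z‖ ∈ Ioo ρ s from hz)]
    · rw [indicator_of_notMem hz, indicator_of_notMem (show ‖z‖ ∉ Ioo ρ s from hz)]
  rw [h2, integral_indicator (measurableSet_ann ρ s)] at h1
  rw [h1]
  have h3 : (volume : Measure ℂ).real (Metric.ball 0 1) = Real.pi := by
    rw [Measure.real, Complex.volume_ball]
    simp
  have h4 : (∫ y in Ioi (0 : ℝ), y ^ (Module.finrank ℝ ℂ - 1) • (Ioo ρ s).indicator f y)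
      = ∫ y in Ioo ρ s, y * f y := by
    rw [← integral_indicator measurableSet_Ioi, ← integral_indicator measurableSet_Ioo]
    congr 1
    ext y
    by_cases hy : y ∈ Ioo ρ s
    · rw [indicator_of_mem (show y ∈ Ioi (0 : ℝ) from hρ.trans hy.1), indicator_of_mem hy,
        indicator_of_mem hy]
      simp [Complex.finrank_real_complex]
    · rw [indicator_of_notMem hy]
      by_cases hy0 : y ∈ Ioi (0 : ℝ)
      · rw [indicator_of_mem hy0, indicator_of_notMem hy, smul_zero]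
      · rw [indicator_of_notMem hy0]
  rw [h4, h3, Complex.finrank_real_complex]
  simp only [nsmul_eq_mul, smul_eq_mul]
  push_cast
  ring

/-- `∫_A |z|^{2j}` for `j = -2` -/
theorem integral_neg_four {ρ s : ℝ} (hρ : 0 < ρ) (hρs : ρ < s) :
    ∫ z in ann ρ s, (‖z‖ ^ 4)⁻¹ = Real.pi * ((ρ ^ 2)⁻¹ - (s ^ 2)⁻¹) := by
  rw [integral_radial hρ hρs (fun y => (y ^ 4)⁻¹)]
  have h1 : ∫ y in Ioo ρ s, y * (y ^ 4)⁻¹ = ((ρ ^ 2)⁻¹ - (s ^ 2)⁻¹) / 2 := by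
    rw [← integral_Ioc_eq_integral_Ioo, ← intervalIntegral.integral_of_le hρs.le]
    have h2 : ∀ y ∈ uIcc ρ s, HasDerivAt (fun y : ℝ => - (y ^ 2)⁻¹ / 2) (y * (y ^ 4)⁻¹) y := by
      intro y hy
      have hy0 : y ≠ 0 := by
        rw [uIcc_of_le hρs.le] at hy
        exact (hρ.trans_le hy.1).ne'
      have h3 := ((hasDerivAt_pow 2 y).inv (pow_ne_zero 2 hy0)).neg.div_const 2
      have h4 : y * (y ^ 4)⁻¹ = - (-(((2 : ℕ) : ℝ) * y ^ (2 - 1)) / (y ^ 2) ^ 2) / 2 := by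
        norm_num
        field_simp
      rw [h4]
      exact h3
    rw [intervalIntegral.integral_eq_sub_of_hasDerivAt h2]
    · ring
    · apply ContinuousOn.intervalIntegrable
      rw [uIcc_of_le hρs.le]
      refine continuousOn_id.mul (ContinuousOn.inv₀ (by fun_prop) ?_)
      intro y hy
      exact pow_ne_zero 4 (hρ.trans_le hy.1).ne'
  rw [h1]; ring

theorem integral_pow {ρ s : ℝ} (hρ : 0 < ρ) (hρs : ρ < s) (j : ℕ) :
    ∫ z in ann ρ s, ‖z‖ ^ (2 * j) = Real.pi * (s ^ (2 * j + 2) - ρ ^ (2 * j + 2)) / (j + 1) := by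
  rw [integral_radial hρ hρs (fun y => y ^ (2 * j))]
  have h1 : ∫ y in Ioo ρ s, y * y ^ (2 * j) = (s ^ (2 * j + 2) - ρ ^ (2 * j + 2)) / (2 * j + 2) := by
    rw [← integral_Ioc_eq_integral_Ioo, ← intervalIntegral.integral_of_le hρs.le]
    have : ∀ y : ℝ, y * y ^ (2 * j) = y ^ (2 * j + 1) := fun y => by ring
    simp_rw [this]
    rw [_root_.integral_pow]
    push_cast
    ring_nf
  rw [h1]
  field_simp

/-- orthogonality of the powers on an annulus -/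
theorem orth (ρ s : ℝ) {i j : ℤ} (hij : i ≠ j) :
    ∫ z in ann ρ s, (starRingEnd ℂ) (z ^ i) * z ^ j = 0 := by
  have hne : ((j : ℂ) - i) ≠ 0 := by
    rw [sub_ne_zero]
    exact_mod_cast hij.symm
  set ω : Circle := Circle.exp (Real.pi / ((j : ℝ) - i)) with hω
  have hω0 : (ω : ℂ) ≠ 0 := Circle.coe_ne_zero ω
  have hpow : (ω : ℂ) ^ (j - i) = -1 := by
    rw [hω, Circle.coe_exp, ← Complex.exp_int_mul]
    push_cast
    rw [← mul_assoc, mul_div_cancel₀ _ hne, Complex.exp_pi_mul_I]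
  have hmp : MeasurePreserving (rotation ω) (volume : Measure ℂ) volume :=
    (rotation ω).measurePreserving
  have hemb : MeasurableEmbedding (rotation ω : ℂ → ℂ) :=
    (rotation ω).toHomeomorph.measurableEmbedding
  have h1 := hmp.setIntegral_preimage_emb hemb (fun z : ℂ => (starRingEnd ℂ) (z ^ i) * z ^ j)
    (ann ρ s)
  have h2 : (rotation ω : ℂ → ℂ) ⁻¹' (ann ρ s) = ann ρ s := by
    ext z
    simp [ann]
  rw [h2] at h1
  have h3 : ∀ z : ℂ, (starRingEnd ℂ) ((rotation ω z) ^ i) * (rotation ω z) ^ j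
      = - ((starRingEnd ℂ) (z ^ i) * z ^ j) := by
    intro z
    rw [rotation_apply, mul_zpow, mul_zpow, map_mul]
    have h4 : (starRingEnd ℂ) ((ω : ℂ) ^ i) = (ω : ℂ) ^ (-i) := by
      rw [map_zpow₀, ← Circle.coe_inv_eq_conj, Circle.coe_inv, inv_zpow, zpow_neg]
    have h5 : (ω : ℂ) ^ (-i) * (ω : ℂ) ^ j = -1 := by
      rw [← zpow_add₀ hω0, ← hpow]; congr 1; ring
    rw [h4]
    calc _ = ((ω : ℂ) ^ (-i) * (ω : ℂ) ^ j) * ((starRingEnd ℂ) (z ^ i) * z ^ j) := by ring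
      _ = _ := by rw [h5]; ring
  simp only [h3] at h1
  rw [integral_neg] at h1
  have h6 := self_eq_neg.1 h1.symm
  exact h6

theorem integrable_zpow_mul {ρ s : ℝ} (hρ : 0 < ρ) (i j : ℤ) (c : ℂ) :
    IntegrableOn (fun z : ℂ => c * ((starRingEnd ℂ) (z ^ i) * z ^ j)) (ann ρ s) := by
  have hK : IsCompact {z : ℂ | ρ ≤ ‖z‖ ∧ ‖z‖ ≤ s} := by
    refine Metric.isCompact_of_isClosed_isBounded ?_ ?_
    · exact (isClosed_le continuous_const continuous_norm).inter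
        (isClosed_le continuous_norm continuous_const)
    · refine Metric.isBounded_closedBall (x := (0 : ℂ)) (r := s) |>.subset ?_
      intro z hz
      simpa using hz.2
  have hc : ContinuousOn (fun z : ℂ => c * ((starRingEnd ℂ) (z ^ i) * z ^ j))
      {z : ℂ | ρ ≤ ‖z‖ ∧ ‖z‖ ≤ s} := by
    have h0 : ∀ z ∈ {z : ℂ | ρ ≤ ‖z‖ ∧ ‖z‖ ≤ s}, z ≠ 0 := by
      intro z hz h
      rw [h] at hz
      have := hz.1
      simp at this
      linarith
    have h1 : ∀ k : ℤ, ContinuousOn (fun z : ℂ => z ^ k) {z : ℂ | ρ ≤ ‖z‖ ∧ ‖z‖ ≤ s} := fun k =>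
      (continuousOn_id (α := ℂ)).zpow₀ k (fun z hz => Or.inl (h0 z hz))
    exact continuousOn_const.mul ((Complex.continuous_conj.comp_continuousOn (h1 i)).mul (h1 j))
  exact (hc.integrableOn_compact hK).mono_set (fun z hz => ⟨hz.1.le, hz.2.le⟩)

/-- Parseval for finite Laurent sums on an annulus -/
theorem parseval {ρ s : ℝ} (hρ : 0 < ρ) (J : Finset ℤ) (b : ℤ → ℂ) :
    ∫ z in ann ρ s, ‖∑ j ∈ J, b j * z ^ j‖ ^ 2 = ∑ j ∈ J, ‖b j‖ ^ 2 * ∫ z in ann ρ s, ‖z ^ j‖ ^ 2 := by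
  have hexp : ∀ z : ℂ, ((‖∑ j ∈ J, b j * z ^ j‖ ^ 2 : ℝ) : ℂ) =
      ∑ i ∈ J, ∑ j ∈ J, ((starRingEnd ℂ) (b i) * b j) * ((starRingEnd ℂ) (z ^ i) * z ^ j) := by
    intro z
    rw [← Complex.normSq_eq_norm_sq, Complex.normSq_eq_conj_mul_self, map_sum, Finset.sum_mul_sum]
    refine Finset.sum_congr rfl fun i _ => Finset.sum_congr rfl fun j _ => ?_
    rw [map_mul]; ring
  have h1 : ((∫ z in ann ρ s, ‖∑ j ∈ J, b j * z ^ j‖ ^ 2 : ℝ) : ℂ) =
      ∑ i ∈ J, ∑ j ∈ J, ((starRingEnd ℂ) (b i) * b j) *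
        ∫ z in ann ρ s, ((starRingEnd ℂ) (z ^ i) * z ^ j) := by
    rw [← integral_complex_ofReal]
    simp only [hexp]
    rw [integral_finsetSum]
    · refine Finset.sum_congr rfl fun i _ => ?_
      rw [integral_finsetSum]
      · refine Finset.sum_congr rfl fun j _ => ?_
        rw [integral_const_mul]
      · intro j _
        exact integrable_zpow_mul hρ i j _
    · intro i _
      exact integrable_finsetSum _ fun j _ => integrable_zpow_mul hρ i j _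
  have h2 : ∀ i ∈ J, ∑ j ∈ J, ((starRingEnd ℂ) (b i) * b j) *
        ∫ z in ann ρ s, ((starRingEnd ℂ) (z ^ i) * z ^ j) =
        ((‖b i‖ ^ 2 * ∫ z in ann ρ s, ‖z ^ i‖ ^ 2 : ℝ) : ℂ) := by
    intro i hi
    rw [Finset.sum_eq_single_of_mem i hi]
    · have h3 : (∫ z in ann ρ s, ((starRingEnd ℂ) (z ^ i) * z ^ i)) =
          ((∫ z in ann ρ s, ‖z ^ i‖ ^ 2 : ℝ) : ℂ) := by
        rw [← integral_complex_ofReal]
        refine integral_congr_ae (Eventually.of_forall fun z => ?_)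
        simp only
        rw [← Complex.normSq_eq_norm_sq, Complex.normSq_eq_conj_mul_self]
      rw [h3, ← Complex.normSq_eq_conj_mul_self, Complex.normSq_eq_norm_sq]
      push_cast
      ring
    · intro j _ hj
      rw [orth ρ s hj.symm, mul_zero]
  rw [Finset.sum_congr rfl h2] at h1
  exact_mod_cast h1

/-- punctured unit disc -/
def U : Set ℂ := Metric.ball (0 : ℂ) 1 \ {0}

theorem isOpen_U : IsOpen U := Metric.isOpen_ball.sdiff isClosed_singleton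

section
variable {c : ℕ → ℂ} {h : ℂ → ℂ}
  (hs : ∀ z ∈ Metric.ball (0 : ℂ) 1, HasSum (fun k => c k * z ^ k) (h z))
include hs

theorem summ {s : ℝ} (h0 : 0 ≤ s) (h1 : s < 1) : Summable (fun k => ‖c k‖ * s ^ k) := by
  have h2 := (hs (s : ℂ) (by simpa [abs_of_nonneg h0] using h1)).summable.norm
  refine h2.congr fun k => ?_
  rw [norm_mul, norm_pow, Complex.norm_real, Real.norm_of_nonneg h0]

/-- partial sums -/
theorem tendsto_partial : TendstoLocallyUniformlyOn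
    (fun (M : ℕ) (z : ℂ) => z⁻¹ + ∑ k ∈ Finset.range (M + 1), c k * z ^ k)
    (fun z => z⁻¹ + h z) atTop U := by
  rw [Metric.tendstoLocallyUniformlyOn_iff]
  intro ε hε x hx
  have hx1 : ‖x‖ < 1 := by simpa using hx.1
  obtain ⟨s, hxs, hs1⟩ := exists_between hx1
  have hs0 : 0 ≤ s := (norm_nonneg x).trans hxs.le
  have hu := tendstoUniformlyOn_tsum_nat (summ hs hs0 hs1) (s := Metric.closedBall (0 : ℂ) s)
    (f := fun k z => c k * z ^ k) (by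
      intro n z hz
      rw [norm_mul, norm_pow]
      have : ‖z‖ ≤ s := by simpa using hz
      gcongr)
  rw [Metric.tendstoUniformlyOn_iff] at hu
  refine ⟨Metric.ball 0 s ∩ U, ?_, ?_⟩
  · rw [inter_comm]
    exact inter_mem self_mem_nhdsWithin (mem_nhdsWithin_of_mem_nhds
      (Metric.isOpen_ball.mem_nhds (by simpa using hxs)))
  · have h3 := (tendsto_add_atTop_nat 1).eventually (hu ε hε)
    filter_upwards [h3] with M hM z hz
    have h4 := hM z (Metric.ball_subset_closedBall hz.1)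
    rw [(hs z hz.2.1).tsum_eq] at h4
    rw [dist_eq_norm] at h4 ⊢
    rwa [add_sub_add_left_eq_sub]

theorem differentiableOn_F : DifferentiableOn ℂ (fun z => z⁻¹ + h z) U := by
  refine (tendsto_partial hs).differentiableOn (Eventually.of_forall fun M => ?_) isOpen_U
  refine DifferentiableOn.add ?_ (by fun_prop)
  exact differentiableOn_inv.mono fun z hz => hz.2

theorem tendsto_deriv_partial : TendstoLocallyUniformlyOn
    (fun (M : ℕ) (z : ℂ) => -(z ^ 2)⁻¹ + ∑ k ∈ Finset.range M, ((k : ℂ) + 1) * c (k + 1) * z ^ k)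
    (deriv (fun z => z⁻¹ + h z)) atTop U := by
  have h1 := (tendsto_partial hs).deriv (Eventually.of_forall fun M => by
    refine DifferentiableOn.add ?_ (by fun_prop)
    exact differentiableOn_inv.mono fun z hz => hz.2) isOpen_U
  refine h1.congr ?_
  intro M z hz
  have hz0 : z ≠ 0 := hz.2
  have h2 : HasDerivAt (fun z : ℂ => z⁻¹ + ∑ k ∈ Finset.range (M + 1), c k * z ^ k)
      (-(z ^ 2)⁻¹ + ∑ k ∈ Finset.range (M + 1), c k * ((k : ℂ) * z ^ (k - 1))) z := by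
    refine (hasDerivAt_inv hz0).add ?_
    exact HasDerivAt.fun_sum fun k _ => (hasDerivAt_pow k z).const_mul (c k)
  simp only [Function.comp]
  rw [h2.deriv, Finset.sum_range_succ']
  simp only [Nat.cast_zero, zero_mul, mul_zero, add_zero, Nat.cast_add, Nat.cast_one,
    Nat.add_sub_cancel]
  congr 1
  refine Finset.sum_congr rfl fun k _ => ?_
  ring

end
/-- closed annulus -/
def cann (ρ s : ℝ) : Set ℂ := {z : ℂ | ρ ≤ ‖z‖ ∧ ‖z‖ ≤ s}

theorem isCompact_cann (ρ s : ℝ) : IsCompact (cann ρ s) := by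
  refine Metric.isCompact_of_isClosed_isBounded ?_ ?_
  · exact (isClosed_le continuous_const continuous_norm).inter
      (isClosed_le continuous_norm continuous_const)
  · refine Metric.isBounded_closedBall (x := (0 : ℂ)) (r := s) |>.subset ?_
    intro z hz
    simpa using hz.2

theorem ann_subset_cann (ρ s : ℝ) : ann ρ s ⊆ cann ρ s := fun _ hz => ⟨hz.1.le, hz.2.le⟩

theorem cann_subset_U {ρ s : ℝ} (hρ : 0 < ρ) (hs1 : s < 1) : cann ρ s ⊆ U := by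
  intro z hz
  refine ⟨by simpa using hz.2.trans_lt hs1, ?_⟩
  intro h
  rw [mem_singleton_iff] at h
  rw [h] at hz
  have := hz.1
  simp at this
  linarith

/-- coefficients of the Laurent sum of the derivative -/
noncomputable def bb (c : ℕ → ℂ) (j : ℤ) : ℂ :=
  if j = -2 then -1 else ((j : ℂ) + 1) * c ((j + 1).toNat)

noncomputable def JJ (M : ℕ) : Finset ℤ := insert (-2) ((Finset.range M).map Nat.castEmbedding)

theorem not_mem_JJ (M : ℕ) : (-2 : ℤ) ∉ (Finset.range M).map Nat.castEmbedding := by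
  simp only [Finset.mem_map, Finset.mem_range, not_exists, not_and]
  intro x _ h
  have : (x : ℤ) = -2 := h
  omega

theorem bb_nat (c : ℕ → ℂ) (k : ℕ) : bb c (k : ℤ) = ((k : ℂ) + 1) * c (k + 1) := by
  unfold bb
  rw [if_neg (by omega)]
  push_cast
  congr 2

theorem bb_neg (c : ℕ → ℂ) : bb c (-2) = -1 := by simp [bb]

theorem sum_JJ (c : ℕ → ℂ) (M : ℕ) (z : ℂ) : ∑ j ∈ JJ M, bb c j * z ^ j =
    -(z ^ 2)⁻¹ + ∑ k ∈ Finset.range M, ((k : ℂ) + 1) * c (k + 1) * z ^ k := by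
  have e1 : z ^ (-2 : ℤ) = (z ^ 2)⁻¹ := by
    rw [zpow_neg]
    norm_cast
  have e2 : ∑ k ∈ Finset.range M, bb c (Nat.castEmbedding k) * z ^ (Nat.castEmbedding k : ℤ) =
      ∑ k ∈ Finset.range M, ((k : ℂ) + 1) * c (k + 1) * z ^ k := by
    refine Finset.sum_congr rfl fun k _ => ?_
    show bb c (k : ℤ) * z ^ (k : ℤ) = _
    rw [bb_nat, zpow_natCast]
  rw [JJ, Finset.sum_insert (not_mem_JJ M), Finset.sum_map, bb_neg, e1, e2, neg_one_mul]

theorem integral_partial {c : ℕ → ℂ} {ρ s : ℝ} (hρ : 0 < ρ) (hρs : ρ < s) (M : ℕ) :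
    ∫ z in ann ρ s, ‖-(z ^ 2)⁻¹ + ∑ k ∈ Finset.range M, ((k : ℂ) + 1) * c (k + 1) * z ^ k‖ ^ 2 =
    Real.pi * ((ρ ^ 2)⁻¹ - (s ^ 2)⁻¹) + Real.pi * ∑ k ∈ Finset.range M,
      ((k : ℝ) + 1) * ‖c (k + 1)‖ ^ 2 * (s ^ (2 * k + 2) - ρ ^ (2 * k + 2)) := by
  have h1 := parseval (s := s) hρ (JJ M) (bb c)
  simp only [sum_JJ] at h1
  rw [h1, JJ, Finset.sum_insert (not_mem_JJ M), Finset.sum_map, bb_neg]
  congr 1
  · rw [norm_neg, norm_one, one_pow, one_mul, ← integral_neg_four hρ hρs]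
    refine integral_congr_ae (Eventually.of_forall fun z => ?_)
    simp only
    rw [zpow_neg, norm_inv, norm_zpow]
    norm_cast
    rw [inv_pow, ← pow_mul]
  · rw [Finset.mul_sum]
    refine Finset.sum_congr rfl fun k _ => ?_
    show ‖bb c (k : ℤ)‖ ^ 2 * (∫ z in ann ρ s, ‖z ^ (k : ℤ)‖ ^ 2) = _
    have h2 : ∀ z : ℂ, ‖z ^ (k : ℤ)‖ ^ 2 = ‖z‖ ^ (2 * k) := by
      intro z
      rw [zpow_natCast, norm_pow, ← pow_mul, mul_comm]
    simp only [h2]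
    rw [integral_pow hρ hρs k, bb_nat, norm_mul]
    have h3 : ‖(k : ℂ) + 1‖ = (k : ℝ) + 1 := by
      have : ((k : ℂ) + 1) = (((k : ℝ) + 1 : ℝ) : ℂ) := by push_cast; rfl
      rw [this, Complex.norm_real, Real.norm_of_nonneg (by positivity)]
    rw [h3]
    have h4 : (k : ℝ) + 1 ≠ 0 := by positivity
    field_simp

section
variable {c : ℕ → ℂ} {h : ℂ → ℂ}
  (hs : ∀ z ∈ Metric.ball (0 : ℂ) 1, HasSum (fun k => c k * z ^ k) (h z))
include hs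

theorem continuousOn_deriv : ContinuousOn (deriv (fun z => z⁻¹ + h z)) U :=
  ((differentiableOn_F hs).deriv isOpen_U).continuousOn

theorem tendsto_integral {ρ s : ℝ} (hρ : 0 < ρ) (hs1 : s < 1) :
    Tendsto (fun M : ℕ => ∫ z in ann ρ s,
      ‖-(z ^ 2)⁻¹ + ∑ k ∈ Finset.range M, ((k : ℂ) + 1) * c (k + 1) * z ^ k‖ ^ 2) atTop
      (𝓝 (∫ z in ann ρ s, ‖deriv (fun z => z⁻¹ + h z) z‖ ^ 2)) := by
  have hu := (tendstoLocallyUniformlyOn_iff_forall_isCompact isOpen_U).1 (tendsto_deriv_partial hs)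
    (cann ρ s) (cann_subset_U hρ hs1) (isCompact_cann ρ s)
  obtain ⟨B, hB⟩ := (isCompact_cann ρ s).exists_bound_of_continuousOn
    ((continuousOn_deriv hs).mono (cann_subset_U hρ hs1))
  rw [Metric.tendstoUniformlyOn_iff] at hu
  refine tendsto_integral_filter_of_dominated_convergence (fun _ => (B + 1) ^ 2) ?_ ?_ ?_ ?_
  · refine Eventually.of_forall fun M => ?_
    have : Measurable (fun z : ℂ => ‖-(z ^ 2)⁻¹ + ∑ k ∈ Finset.range M,
        ((k : ℂ) + 1) * c (k + 1) * z ^ k‖ ^ 2) := by fun_prop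
    exact this.aestronglyMeasurable
  · filter_upwards [hu 1 one_pos] with M hM
    rw [ae_restrict_iff' (measurableSet_ann ρ s)]
    refine Eventually.of_forall fun z hz => ?_
    have h1 := hM z (ann_subset_cann ρ s hz)
    have h2 := hB z (ann_subset_cann ρ s hz)
    rw [dist_eq_norm] at h1
    rw [norm_pow, norm_norm]
    have h3 : ‖-(z ^ 2)⁻¹ + ∑ k ∈ Finset.range M, ((k : ℂ) + 1) * c (k + 1) * z ^ k‖ ≤ B + 1 := by
      calc _ = ‖deriv (fun z => z⁻¹ + h z) z - (deriv (fun z => z⁻¹ + h z) z -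
            (-(z ^ 2)⁻¹ + ∑ k ∈ Finset.range M, ((k : ℂ) + 1) * c (k + 1) * z ^ k))‖ := by
            rw [sub_sub_cancel]
        _ ≤ B + 1 := (norm_sub_le _ _).trans (by linarith)
    gcongr
  · exact integrable_const_iff.2 (Or.inr (isFiniteMeasure_restrict.2 (volume_ann_lt_top ρ s).ne))
  · rw [ae_restrict_iff' (measurableSet_ann ρ s)]
    refine Eventually.of_forall fun z hz => ?_
    have h1 : Tendsto (fun M : ℕ => -(z ^ 2)⁻¹ + ∑ k ∈ Finset.range M,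
        ((k : ℂ) + 1) * c (k + 1) * z ^ k) atTop (𝓝 (deriv (fun z => z⁻¹ + h z) z)) :=
      (tendsto_deriv_partial hs).tendsto_at (cann_subset_U hρ hs1 (ann_subset_cann ρ s hz))
    exact (h1.norm).pow 2

/-- lower bound of the area of the image -/
theorem integral_ge {ρ s : ℝ} (hρ : 0 < ρ) (hρs : ρ < s) (hs1 : s < 1) (K : ℕ) :
    Real.pi * ((ρ ^ 2)⁻¹ - (s ^ 2)⁻¹) + Real.pi * ∑ k ∈ Finset.range K,
      ((k : ℝ) + 1) * ‖c (k + 1)‖ ^ 2 * (s ^ (2 * k + 2) - ρ ^ (2 * k + 2)) ≤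
    ∫ z in ann ρ s, ‖deriv (fun z => z⁻¹ + h z) z‖ ^ 2 := by
  refine ge_of_tendsto (tendsto_integral hs hρ hs1) ?_
  filter_upwards [eventually_ge_atTop K] with M hM
  rw [integral_partial hρ hρs]
  refine add_le_add le_rfl (mul_le_mul_of_nonneg_left ?_ Real.pi_pos.le)
  refine Finset.sum_le_sum_of_subset_of_nonneg (Finset.range_subset_range.2 hM) fun k _ _ => ?_
  have : ρ ^ (2 * k + 2) ≤ s ^ (2 * k + 2) := by gcongr
  have h2 : 0 ≤ s ^ (2 * k + 2) - ρ ^ (2 * k + 2) := by linarith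
  positivity

end
/-- the real-linear map `w ↦ w + a conj w` -/
noncomputable def LL (a : ℂ) : ℂ →ₗ[ℝ] ℂ where
  toFun w := w + a * (starRingEnd ℂ) w
  map_add' := by intro x y; simp only [map_add]; ring
  map_smul' := by
    intro r x
    simp only [Complex.real_smul, map_mul, Complex.conj_ofReal, RingHom.id_apply]
    ring

theorem det_LL (a : ℂ) : LinearMap.det (LL a) = 1 - ‖a‖ ^ 2 := by
  rw [← LinearMap.det_toMatrix Complex.basisOneI, Matrix.det_fin_two]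
  simp only [LinearMap.toMatrix_apply, Complex.coe_basisOneI, Complex.coe_basisOneI_repr,
    Matrix.cons_val_zero, Matrix.cons_val_one, LL, LinearMap.coe_mk, AddHom.coe_mk]
  rw [← Complex.normSq_eq_norm_sq, Complex.normSq_apply]
  simp
  ring

theorem volume_LL_le {a : ℂ} (ha : ‖a‖ ≤ 1) {R : ℝ} (hR : 0 ≤ R) :
    volume (LL a '' Metric.closedBall 0 R) ≤ ENNReal.ofReal (Real.pi * R ^ 2) := by
  rw [Measure.addHaar_image_linearMap, det_LL, Complex.volume_closedBall]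
  have h1 : |1 - ‖a‖ ^ 2| ≤ 1 := by
    rw [abs_le]
    have : ‖a‖ ^ 2 ≤ 1 := pow_le_one₀ (norm_nonneg a) ha
    constructor <;> nlinarith [sq_nonneg ‖a‖]
  have h2 : (NNReal.pi : ENNReal) = ENNReal.ofReal Real.pi := by
    rw [ENNReal.ofReal_eq_coe_nnreal Real.pi_pos.le]; rfl
  calc ENNReal.ofReal |1 - ‖a‖ ^ 2| * (ENNReal.ofReal R ^ 2 * NNReal.pi)
      ≤ ENNReal.ofReal 1 * (ENNReal.ofReal R ^ 2 * NNReal.pi) := by gcongr
    _ = ENNReal.ofReal (Real.pi * R ^ 2) := by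
        rw [ENNReal.ofReal_one, one_mul, h2, ← ENNReal.ofReal_pow hR,
          ← ENNReal.ofReal_mul (by positivity), mul_comm]

theorem real_ineq {γ B ρ x : ℝ} (hγ : 0 ≤ γ) (hB : 0 ≤ B) (hρ : 0 < ρ)
    (h1 : γ * ρ ≤ 1 / 2) (h2 : 16 * B * ρ ≤ 1) (hx : ρ < x) (hx1 : x < 1) :
    x⁻¹ * (1 - γ ^ 2 * ρ ^ 2 * x ^ 2) + γ * x * (1 - ρ ^ 2 / x ^ 2) + 2 * (B * x ^ 2) ≤
      (1 - (γ * ρ ^ 2) ^ 2) * (ρ⁻¹ + 16 * B * ρ ^ 2) := by
  have hx0 : 0 < x := hρ.trans hx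
  have hid : (1 - (γ * ρ ^ 2) ^ 2) * ρ⁻¹ -
      (x⁻¹ * (1 - γ ^ 2 * ρ ^ 2 * x ^ 2) + γ * x * (1 - ρ ^ 2 / x ^ 2)) =
      (1 - γ * ρ ^ 2) * (ρ⁻¹ - x⁻¹) * (1 - γ * ρ * x) := by
    field_simp
    ring
  have h3 : γ * ρ ^ 2 ≤ 1 / 2 := by nlinarith [mul_nonneg hγ hρ.le]
  have h3' : 0 ≤ γ * ρ ^ 2 := by positivity
  have h4 : γ * ρ * x ≤ 1 / 2 := by nlinarith [mul_nonneg hγ hρ.le]
  have h5 : 0 ≤ ρ⁻¹ - x⁻¹ := by
    rw [sub_nonneg]
    gcongr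
  have h6 : (1 / 2) * (ρ⁻¹ - x⁻¹) * (1 / 2) ≤ (1 - γ * ρ ^ 2) * (ρ⁻¹ - x⁻¹) * (1 - γ * ρ * x) := by
    have h61 : (1 / 2) * (ρ⁻¹ - x⁻¹) ≤ (1 - γ * ρ ^ 2) * (ρ⁻¹ - x⁻¹) :=
      mul_le_mul_of_nonneg_right (by linarith) h5
    have h62 : 0 ≤ (1 - γ * ρ ^ 2) * (ρ⁻¹ - x⁻¹) := mul_nonneg (by linarith) h5
    exact mul_le_mul h61 (by linarith) (by norm_num) h62
  have h7 : 8 * B * ρ ^ 2 ≤ (1 - (γ * ρ ^ 2) ^ 2) * (16 * B * ρ ^ 2) := by
    have h8 : (γ * ρ ^ 2) ^ 2 ≤ 1 / 2 := by nlinarith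
    have h9 : 0 ≤ 16 * B * ρ ^ 2 := by positivity
    nlinarith
  have h10 : 2 * (B * x ^ 2) ≤ (1 / 2) * (ρ⁻¹ - x⁻¹) * (1 / 2) + 8 * B * ρ ^ 2 := by
    rcases le_or_gt x (2 * ρ) with hc | hc
    · have h11 : x ^ 2 ≤ (2 * ρ) ^ 2 := by gcongr
      have h12 := mul_le_mul_of_nonneg_left h11 hB
      nlinarith
    · have h11 : x⁻¹ ≤ (2 * ρ)⁻¹ := by gcongr
      have h12 : (2 * ρ)⁻¹ = ρ⁻¹ / 2 := by field_simp
      have h13 : 16 * B ≤ ρ⁻¹ := by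
        rw [← one_div, le_div_iff₀ hρ]; exact h2
      have h14 : x ^ 2 ≤ 1 := pow_le_one₀ hx0.le hx1.le
      have h15 : B * x ^ 2 ≤ B := by nlinarith
      have h16 : 0 ≤ 8 * B * ρ ^ 2 := by positivity
      rw [h12] at h11
      linarith
  have h17 : (1 - (γ * ρ ^ 2) ^ 2) * (ρ⁻¹ + 16 * B * ρ ^ 2) =
    (1 - (γ * ρ ^ 2) ^ 2) * ρ⁻¹ + (1 - (γ * ρ ^ 2) ^ 2) * (16 * B * ρ ^ 2) := by ring
  linarith

/-- the image of an annulus is contained in an ellipse -/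
theorem image_subset {h : ℂ → ℂ} {c1 : ℂ} {B ρ s : ℝ} (hB : 0 ≤ B) (hs1 : s < 1)
    (hh : ∀ z : ℂ, ‖z‖ < s → ‖h z - c1 * z‖ ≤ B * ‖z‖ ^ 2) (hρ : 0 < ρ) (hρ1 : ρ ≤ 1)
    (h1 : ‖c1‖ * ρ ≤ 1 / 2) (h2 : 16 * B * ρ ≤ 1) :
    (fun z => z⁻¹ + h z) '' (ann ρ s) ⊆
      LL (c1 * (ρ : ℂ) ^ 2) '' Metric.closedBall 0 (ρ⁻¹ + 16 * B * ρ ^ 2) := by
  rintro w ⟨z, hz, rfl⟩
  set a : ℂ := c1 * (ρ : ℂ) ^ 2 with ha
  set x := ‖z‖ with hx
  have hx0 : 0 < x := hρ.trans hz.1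
  have hx1 : x < 1 := hz.2.trans hs1
  have hz0 : z ≠ 0 := norm_pos_iff.1 hx0
  have hna : ‖a‖ = ‖c1‖ * ρ ^ 2 := by
    rw [ha, norm_mul, norm_pow, Complex.norm_real, Real.norm_of_nonneg hρ.le]
  have hna1 : ‖a‖ ≤ 1 / 2 := by
    rw [hna]; nlinarith [mul_nonneg (norm_nonneg c1) hρ.le]
  have hD : 0 < 1 - ‖a‖ ^ 2 := by nlinarith [norm_nonneg a]
  set w : ℂ := z⁻¹ + h z with hw
  set e : ℂ := h z - c1 * z with he
  have hne : ‖e‖ ≤ B * x ^ 2 := hh z hz.2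
  have hconj : (starRingEnd ℂ) z * z = (x : ℂ) ^ 2 := by
    rw [← Complex.normSq_eq_conj_mul_self, Complex.normSq_eq_norm_sq]; push_cast; rfl
  have hxc : (x : ℂ) ≠ 0 := by exact_mod_cast hx0.ne'
  have hzc : (starRingEnd ℂ) z ≠ 0 := by
    intro h0
    rw [h0, zero_mul] at hconj
    exact pow_ne_zero 2 hxc hconj.symm
  have hkey : w - a * (starRingEnd ℂ) w =
      z⁻¹ * ((1 - ‖c1‖ ^ 2 * ρ ^ 2 * x ^ 2 : ℝ) : ℂ) + c1 * z * ((1 - ρ ^ 2 / x ^ 2 : ℝ) : ℂ) +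
        (e - a * (starRingEnd ℂ) e) := by
    have h3 : w = z⁻¹ + c1 * z + e := by rw [hw, he]; ring
    have h4 : (starRingEnd ℂ) c1 * c1 = (‖c1‖ : ℂ) ^ 2 := by
      rw [← Complex.normSq_eq_conj_mul_self, Complex.normSq_eq_norm_sq]; push_cast; rfl
    have h5 : (starRingEnd ℂ) z⁻¹ = z / (x : ℂ) ^ 2 := by
      rw [map_inv₀, eq_div_iff (pow_ne_zero 2 hxc), ← hconj]
      field_simp
    have h6 : (starRingEnd ℂ) z = z⁻¹ * (x : ℂ) ^ 2 := by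
      rw [← hconj]; field_simp
    rw [h3, map_add, map_add, map_mul, h5, h6]
    push_cast
    rw [← h4, ha]
    field_simp
    ring
  have hnorm : ‖w - a * (starRingEnd ℂ) w‖ ≤ (1 - ‖a‖ ^ 2) * (ρ⁻¹ + 16 * B * ρ ^ 2) := by
    have h7 : ‖z⁻¹ * ((1 - ‖c1‖ ^ 2 * ρ ^ 2 * x ^ 2 : ℝ) : ℂ)‖ =
        x⁻¹ * (1 - ‖c1‖ ^ 2 * ρ ^ 2 * x ^ 2) := by
      rw [norm_mul, norm_inv, Complex.norm_real, Real.norm_of_nonneg]
      have : ‖c1‖ * ρ * x ≤ 1 := by nlinarith [mul_nonneg (norm_nonneg c1) hρ.le]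
      have h8 : 0 ≤ ‖c1‖ * ρ * x := by positivity
      nlinarith
    have h8 : ‖c1 * z * ((1 - ρ ^ 2 / x ^ 2 : ℝ) : ℂ)‖ = ‖c1‖ * x * (1 - ρ ^ 2 / x ^ 2) := by
      rw [norm_mul, norm_mul, Complex.norm_real, Real.norm_of_nonneg]
      rw [sub_nonneg, div_le_one (by positivity)]
      have := hz.1
      gcongr
    have h9 : ‖e - a * (starRingEnd ℂ) e‖ ≤ 2 * (B * x ^ 2) := by
      calc ‖e - a * (starRingEnd ℂ) e‖ ≤ ‖e‖ + ‖a * (starRingEnd ℂ) e‖ := norm_sub_le _ _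
        _ = ‖e‖ + ‖a‖ * ‖e‖ := by rw [norm_mul, RCLike.norm_conj]
        _ ≤ 2 * (B * x ^ 2) := by nlinarith [norm_nonneg e, norm_nonneg a]
    rw [hkey]
    refine (norm_add_le _ _).trans ?_
    refine (add_le_add (norm_add_le _ _) h9).trans ?_
    rw [h7, h8, hna]
    exact real_ineq (norm_nonneg c1) hB hρ h1 h2 hz.1 hx1
  refine ⟨((1 - ‖a‖ ^ 2 : ℝ) : ℂ)⁻¹ * (w - a * (starRingEnd ℂ) w), ?_, ?_⟩
  · rw [mem_closedBall_zero_iff, norm_mul, norm_inv, Complex.norm_real, Real.norm_of_nonneg hD.le,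
      inv_mul_le_iff₀ hD]
    exact hnorm
  · show _ + a * (starRingEnd ℂ) _ = w
    have hDc : ((1 - ‖a‖ ^ 2 : ℝ) : ℂ) ≠ 0 := by exact_mod_cast hD.ne'
    have h4 : a * (starRingEnd ℂ) a = (‖a‖ : ℂ) ^ 2 := by
      rw [mul_comm, ← Complex.normSq_eq_conj_mul_self, Complex.normSq_eq_norm_sq]; push_cast; rfl
    rw [map_mul, map_inv₀, Complex.conj_ofReal, map_sub, map_mul, Complex.conj_conj]
    have h5 : ((1 - ‖a‖ ^ 2 : ℝ) : ℂ)⁻¹ * (w - a * (starRingEnd ℂ) w) +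
        a * (((1 - ‖a‖ ^ 2 : ℝ) : ℂ)⁻¹ * ((starRingEnd ℂ) w - (starRingEnd ℂ) a * w)) =
        ((1 - ‖a‖ ^ 2 : ℝ) : ℂ)⁻¹ * ((1 - a * (starRingEnd ℂ) a) * w) := by ring
    rw [h5, h4]
    have h6 : (1 - (‖a‖ : ℂ) ^ 2) = ((1 - ‖a‖ ^ 2 : ℝ) : ℂ) := by push_cast; rfl
    rw [h6, ← mul_assoc, inv_mul_cancel₀ hDc, one_mul]

section
variable {c : ℕ → ℂ} {h : ℂ → ℂ}
  (hs : ∀ z ∈ Metric.ball (0 : ℂ) 1, HasSum (fun k => c k * z ^ k) (h z))
include hs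

theorem remainder_bound {s : ℝ} (hs0 : 0 < s) (hs1 : s < 1) (hc0 : c 0 = 0) :
    ∃ B : ℝ, 0 ≤ B ∧ ∀ z : ℂ, ‖z‖ < s → ‖h z - c 1 * z‖ ≤ B * ‖z‖ ^ 2 := by
  have h1 : Summable (fun k => ‖c (k + 2)‖ * s ^ k) := by
    have h2 := (summable_nat_add_iff 2).2 (summ hs hs0.le hs1)
    have h3 := h2.mul_right ((s ^ 2)⁻¹)
    refine h3.congr fun k => ?_
    rw [pow_add]
    field_simp
  refine ⟨∑' k, ‖c (k + 2)‖ * s ^ k, tsum_nonneg fun k => by positivity, fun z hz => ?_⟩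
  have hz1 : z ∈ Metric.ball (0 : ℂ) 1 := by simpa using hz.trans hs1
  have h4 : HasSum (fun k => c (k + 2) * z ^ (k + 2)) (h z - c 1 * z) := by
    have := (hasSum_nat_add_iff' 2).2 (hs z hz1)
    simpa [Finset.sum_range_succ, hc0] using this
  rw [← h4.tsum_eq, mul_comm, ← tsum_mul_left]
  refine (norm_tsum_le_tsum_norm ?_).trans ?_
  · exact h4.summable.norm
  · refine h4.summable.norm.tsum_le_tsum (fun k => ?_) (h1.mul_left _)
    rw [norm_mul, norm_pow, pow_add]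
    have : ‖z‖ ^ k ≤ s ^ k := by gcongr
    calc ‖c (k + 2)‖ * (‖z‖ ^ k * ‖z‖ ^ 2) = ‖z‖ ^ 2 * (‖c (k + 2)‖ * ‖z‖ ^ k) := by ring
      _ ≤ ‖z‖ ^ 2 * (‖c (k + 2)‖ * s ^ k) := by gcongr

theorem area_step (hinj : InjOn (fun z : ℂ => z⁻¹ + h z) U) {s B ρ : ℝ}
    (hs1 : s < 1) (hB : 0 ≤ B) (hBb : ∀ z : ℂ, ‖z‖ < s → ‖h z - c 1 * z‖ ≤ B * ‖z‖ ^ 2)
    (hρ : 0 < ρ) (hρs : ρ < s) (hρ1 : ρ ≤ 1) (h1 : ‖c 1‖ * ρ ≤ 1 / 2) (h2 : 16 * B * ρ ≤ 1) (K : ℕ) :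
    ∑ k ∈ Finset.range K, ((k : ℝ) + 1) * ‖c (k + 1)‖ ^ 2 * (s ^ (2 * k + 2) - ρ ^ (2 * k + 2)) ≤
      (s ^ 2)⁻¹ + 32 * B * ρ + 256 * B ^ 2 * ρ ^ 4 := by
  set F : ℂ → ℂ := fun z => z⁻¹ + h z with hF
  have hsub : ann ρ s ⊆ U := (ann_subset_cann ρ s).trans (cann_subset_U hρ hs1)
  have hder : ∀ z ∈ ann ρ s, HasDerivAt F (deriv F z) z := fun z hz =>
    ((differentiableOn_F hs).differentiableAt (isOpen_U.mem_nhds (hsub hz))).hasDerivAt
  have h3 := area_image (measurableSet_ann ρ s) hder (hinj.mono hsub)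
  have hna : ‖c 1 * (ρ : ℂ) ^ 2‖ ≤ 1 := by
    rw [norm_mul, norm_pow, Complex.norm_real, Real.norm_of_nonneg hρ.le]
    nlinarith [mul_nonneg (norm_nonneg (c 1)) hρ.le]
  have hR : 0 ≤ ρ⁻¹ + 16 * B * ρ ^ 2 := by positivity
  have h4 : volume (F '' ann ρ s) ≤ ENNReal.ofReal (Real.pi * (ρ⁻¹ + 16 * B * ρ ^ 2) ^ 2) :=
    (measure_mono (image_subset hB hs1 hBb hρ hρ1 h1 h2)).trans (volume_LL_le hna hR)
  have hint : IntegrableOn (fun z => ‖deriv F z‖ ^ 2) (ann ρ s) := by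
    have : ContinuousOn (fun z => ‖deriv F z‖ ^ 2) (cann ρ s) :=
      (((continuousOn_deriv hs).mono (cann_subset_U hρ hs1)).norm).pow 2
    exact (this.integrableOn_compact (isCompact_cann ρ s)).mono_set (ann_subset_cann ρ s)
  rw [← h3, ← ofReal_integral_eq_lintegral_ofReal hint
    (Eventually.of_forall fun z => by positivity)] at h4
  have h5 : ∫ z in ann ρ s, ‖deriv F z‖ ^ 2 ≤ Real.pi * (ρ⁻¹ + 16 * B * ρ ^ 2) ^ 2 :=
    (ENNReal.ofReal_le_ofReal_iff (by positivity)).1 h4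
  have h6 := (integral_ge hs hρ hρs hs1 K).trans h5
  rw [← mul_add] at h6
  have h7 := le_of_mul_le_mul_left h6 Real.pi_pos
  have h8 : (ρ⁻¹ + 16 * B * ρ ^ 2) ^ 2 = (ρ ^ 2)⁻¹ + 32 * B * ρ + 256 * B ^ 2 * ρ ^ 4 := by
    field_simp
    ring
  rw [h8] at h7
  linarith

theorem area_s (hinj : InjOn (fun z : ℂ => z⁻¹ + h z) U) (hc0 : c 0 = 0) {s : ℝ} (hs0 : 0 < s)
    (hs1 : s < 1) (K : ℕ) :
    ∑ k ∈ Finset.range K, ((k : ℝ) + 1) * ‖c (k + 1)‖ ^ 2 * s ^ (2 * k + 2) ≤ (s ^ 2)⁻¹ := by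
  obtain ⟨B, hB, hBb⟩ := remainder_bound hs hs0 hs1 hc0
  have h1 : Tendsto (fun ρ : ℝ => ∑ k ∈ Finset.range K, ((k : ℝ) + 1) * ‖c (k + 1)‖ ^ 2 *
      (s ^ (2 * k + 2) - ρ ^ (2 * k + 2))) (𝓝[>] 0)
      (𝓝 (∑ k ∈ Finset.range K, ((k : ℝ) + 1) * ‖c (k + 1)‖ ^ 2 * s ^ (2 * k + 2))) := by
    have hc : Continuous (fun ρ : ℝ => ∑ k ∈ Finset.range K, ((k : ℝ) + 1) * ‖c (k + 1)‖ ^ 2 *
      (s ^ (2 * k + 2) - ρ ^ (2 * k + 2))) := by fun_prop
    have := (hc.tendsto 0).mono_left (nhdsWithin_le_nhds (s := Ioi (0 : ℝ)))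
    simpa using this
  have h2 : Tendsto (fun ρ : ℝ => (s ^ 2)⁻¹ + 32 * B * ρ + 256 * B ^ 2 * ρ ^ 4) (𝓝[>] 0)
      (𝓝 ((s ^ 2)⁻¹)) := by
    have hc : Continuous (fun ρ : ℝ => (s ^ 2)⁻¹ + 32 * B * ρ + 256 * B ^ 2 * ρ ^ 4) := by fun_prop
    have := (hc.tendsto 0).mono_left (nhdsWithin_le_nhds (s := Ioi (0 : ℝ)))
    simpa using this
  refine le_of_tendsto_of_tendsto h1 h2 ?_
  have e1 : ∀ᶠ ρ : ℝ in 𝓝[>] 0, ‖c 1‖ * ρ < 1 / 2 := by
    have hc : Continuous (fun ρ : ℝ => ‖c 1‖ * ρ) := by fun_prop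
    refine ((hc.tendsto 0).mono_left nhdsWithin_le_nhds).eventually (gt_mem_nhds ?_)
    norm_num
  have e2 : ∀ᶠ ρ : ℝ in 𝓝[>] 0, 16 * B * ρ < 1 := by
    have hc : Continuous (fun ρ : ℝ => 16 * B * ρ) := by fun_prop
    refine ((hc.tendsto 0).mono_left nhdsWithin_le_nhds).eventually (gt_mem_nhds ?_)
    norm_num
  have e3 : ∀ᶠ ρ : ℝ in 𝓝[>] 0, ρ < s := nhdsWithin_le_nhds (gt_mem_nhds hs0)
  filter_upwards [e1, e2, e3, self_mem_nhdsWithin] with ρ h3 h4 h5 h6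
  exact area_step hs hinj hs1 hB hBb h6 h5 (by linarith) h3.le h4.le K

theorem area_zero (hinj : InjOn (fun z : ℂ => z⁻¹ + h z) U) (hc0 : c 0 = 0) (K : ℕ) :
    ∑ k ∈ Finset.range K, ((k : ℝ) + 1) * ‖c (k + 1)‖ ^ 2 ≤ 1 := by
  have h1 : Tendsto (fun s : ℝ => ∑ k ∈ Finset.range K, ((k : ℝ) + 1) * ‖c (k + 1)‖ ^ 2 *
      s ^ (2 * k + 2)) (𝓝[<] 1)
      (𝓝 (∑ k ∈ Finset.range K, ((k : ℝ) + 1) * ‖c (k + 1)‖ ^ 2)) := by
    have hc : Continuous (fun s : ℝ => ∑ k ∈ Finset.range K, ((k : ℝ) + 1) * ‖c (k + 1)‖ ^ 2 *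
      s ^ (2 * k + 2)) := by fun_prop
    have := (hc.tendsto 1).mono_left (nhdsWithin_le_nhds (s := Iio (1 : ℝ)))
    simpa using this
  have h2 : Tendsto (fun s : ℝ => (s ^ 2)⁻¹) (𝓝[<] 1) (𝓝 1) := by
    have hc : ContinuousAt (fun s : ℝ => (s ^ 2)⁻¹) 1 :=
      (continuous_pow 2).continuousAt.inv₀ (by norm_num)
    have := hc.tendsto.mono_left (nhdsWithin_le_nhds (s := Iio (1 : ℝ)))
    simpa using this
  refine le_of_tendsto_of_tendsto h1 h2 ?_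
  have e3 : ∀ᶠ s : ℝ in 𝓝[<] 1, 0 < s := nhdsWithin_le_nhds (lt_mem_nhds one_pos)
  filter_upwards [e3, self_mem_nhdsWithin] with s h3 h4
  exact area_s hs hinj hc0 h3 h4 K

end

/-- Gronwall's area theorem -/
theorem target_area : Pool.Agent.H85.KP.TargetArea := by
  intro c h hs hinj K
  set c' : ℕ → ℂ := fun k => c k - if k = 0 then c 0 else 0 with hc'
  have hs' : ∀ z ∈ Metric.ball (0 : ℂ) 1, HasSum (fun k => c' k * z ^ k) (h z - c 0) := by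
    intro z hz
    have h1 := (hs z hz).sub (hasSum_ite_eq 0 (c 0))
    refine h1.congr_fun ?_
    intro k
    simp only [hc']
    by_cases hk : k = 0
    · subst hk; simp
    · simp [hk]
  have hinj' : InjOn (fun z : ℂ => z⁻¹ + (h z - c 0)) U := by
    intro x hx y hy hxy
    refine hinj hx hy ?_
    simp only [one_div] at hxy ⊢
    have : x⁻¹ + h x = (x⁻¹ + (h x - c 0)) + c 0 := by ring
    rw [this, hxy]; ring
  have h2 := area_zero hs' hinj' (by simp [hc']) K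
  have h3 : ∀ k, c' (k + 1) = c (k + 1) := fun k => by simp [hc']
  simp only [h3] at h2
  calc ∑ k ∈ Finset.range K, (k : ℝ) * ‖c k‖ ^ 2
      ≤ ∑ k ∈ Finset.range (K + 1), (k : ℝ) * ‖c k‖ ^ 2 :=
        Finset.sum_le_sum_of_subset_of_nonneg (Finset.range_subset_range.2 (Nat.le_succ K))
          fun k _ _ => by positivity
    _ = ∑ k ∈ Finset.range K, ((k : ℝ) + 1) * ‖c (k + 1)‖ ^ 2 := by
        rw [Finset.sum_range_succ']
        simp
    _ ≤ 1 := h2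

end Pool.Agent.H34.KPArea
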